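import Pool.Agent.Helper22_DEN.Stmt

/-!
# BDG: boundedness
-/

open scoped BigOperators

namespace Pool.Agent.DEN.H75

open Pool.Agent.DEN

section
variable {r : ℕ} {C : Matrix (Fin r) (Fin r) ℤ} {K : Type} [Field K]

theorem bd_sum (h1 : Fld1Stmt) {ι : Type} (s : Finset ι) (f : ι → FF K) (m : ℤ)
    (h : ∀ i ∈ s, f i ∈ Bd K m) : ∑ i ∈ s, f i ∈ Bd K m := by
  classical
  obtain ⟨z, add, -⟩ := h1 K
  induction s using Finset.induction_on with
  | empty => simpa using z m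
  | insert a s ha ih =>
    rw [Finset.sum_insert ha]
    exact add m _ _ (h a (Finset.mem_insert_self _ _))
      (ih fun i hi => h i (Finset.mem_insert_of_mem hi))

theorem exists_bd (h1 : Fld1Stmt) (a : FF K) : ∃ m : ℕ, a ∈ Bd K m := by
  obtain ⟨z, add, neg, mul, mono, int, tne, tmul, dec⟩ := h1 K
  by_cases ha : a = 0
  · exact ⟨0, by rw [ha]; exact z _⟩
  · obtain ⟨m, u, h2, h3, -⟩ := dec a ha
    refine ⟨m.toNat, mono m _ _ (Int.self_le_toNat m) ?_⟩
    rw [h2]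
    exact (tmul m u).2 h3

theorem bnd_apply (h1 : Fld1Stmt) {m n : ℤ} {g : grp C K} (hg : bnd m g) {v : LieV C (FF K)}
    (hv : Cd (Bd K n) v) : Cd (Bd K (m + n)) (g.1 v) := by
  obtain ⟨z, add, neg, mul, mono, int, tne, tmul, dec⟩ := h1 K
  have hv' : Cd (Bd K 0) (tt K ^ (-n) • v) := by
    have key : ∀ a : FF K, a ∈ Bd K n → tt K ^ (-n) * a ∈ Bd K 0 := by
      intro a ha
      rw [← tmul n]
      rw [← mul_assoc, ← zpow_add₀ tne]
      simpa using ha
    exact ⟨fun i => key _ (hv.1 i), fun γ => key _ (hv.2 γ)⟩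
  have h2 := hg _ hv'
  have h3 : g.1 v = tt K ^ n • g.1 (tt K ^ (-n) • v) := by
    rw [← map_smul, smul_smul, ← zpow_add₀ tne]
    simp
  rw [h3]
  have tn : tt K ^ n ∈ Bd K n := by
    have := (tmul n 1).2 (by simpa using int 1)
    simpa using this
  have key : ∀ a : FF K, a ∈ Bd K m → tt K ^ n * a ∈ Bd K (m + n) := by
    intro a ha
    rw [add_comm m n]
    exact mul n m _ _ tn ha
  exact ⟨fun i => key _ (h2.1 i), fun γ => key _ (h2.2 γ)⟩

theorem bnd_mul (h1 : Fld1Stmt) {m n : ℤ} {g h : grp C K} (hg : bnd m g) (hh : bnd n h) :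
    bnd (m + n) (g * h) := by
  intro v hv
  have : (g * h).1 v = g.1 (h.1 v) := rfl
  rw [this]
  exact bnd_apply h1 hg (hh v hv)

theorem bnd_rootMap (h1 : Fld1Stmt) (β : Rt C) (a : FF K) (m : ℕ) (ha : a ∈ Bd K m)
    (v : LieV C (FF K)) (hv : Cd (Bd K 0) v) : Cd (Bd K ((2 * m : ℕ) : ℤ)) (rootMap β a v) := by
  obtain ⟨z, add, neg, mul, mono, int, tne, tmul, dec⟩ := h1 K
  have sub : ∀ (m : ℤ) (a b : FF K), a ∈ Bd K m → b ∈ Bd K m → a - b ∈ Bd K m := by
    intro m a b h2 h3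
    rw [sub_eq_add_neg]; exact add m _ _ h2 (neg m _ h3)
  have hcrd : ∀ x : Fin r → ℤ, crd v x ∈ Bd K 0 := by
    intro x
    unfold crd
    split_ifs with h
    · exact hv.2 _
    · exact z 0
  have hpr : ∀ x : Fin r → ℤ, pr v x ∈ Bd K 0 := by
    intro x
    unfold pr
    refine bd_sum h1 _ _ _ fun i _ => bd_sum h1 _ _ _ fun j _ => ?_
    have e1 := mul 0 0 _ _ (mul 0 0 _ _ (hv.1 i) (int (C i j))) (int (x j))
    simpa using e1
  have m0 : ∀ x : FF K, x ∈ Bd K 0 → a * x ∈ Bd K ((2 * m : ℕ) : ℤ) := by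
    intro x hx
    have := mul m 0 _ _ ha hx
    exact mono _ _ _ (by push_cast; omega) this
  have m1 : ∀ x : FF K, x ∈ Bd K 0 → x ∈ Bd K ((2 * m : ℕ) : ℤ) :=
    fun x hx => mono 0 _ _ (by push_cast; omega) hx
  have m2 : ∀ x : FF K, x ∈ Bd K 0 → a ^ 2 * x ∈ Bd K ((2 * m : ℕ) : ℤ) := by
    intro x hx
    have := mul _ 0 _ _ (mul m m _ _ ha ha) hx
    rw [← pow_two] at this
    exact mono _ _ _ (by push_cast; omega) this
  constructor
  · intro i
    rw [rootMap_fst]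
    refine sub _ _ _ (m1 _ (hv.1 i)) ?_
    rw [mul_assoc]
    have := mul 0 0 _ _ (hv.2 β.neg) (int (β.1 i))
    exact m0 _ (by simpa using this)
  · intro γ
    by_cases h2 : γ = β
    · subst h2
      rw [rootMap_snd_self]
      exact add _ _ _ (sub _ _ _ (m1 _ (hv.2 γ)) (m0 _ (hpr _))) (m2 _ (hv.2 _))
    · by_cases h3 : ip C β.1 γ.1 = 1
      · rw [rootMap_snd_one _ _ _ _ h3]
        refine add _ _ _ (m1 _ (hv.2 γ)) ?_
        rw [mul_assoc]
        have := mul 0 0 _ _ (int (eps C β.1 (γ.1 - β.1))) (hcrd (γ.1 - β.1))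
        exact m0 _ (by simpa using this)
      · rw [rootMap_snd_other _ _ _ _ h2 h3]
        exact m1 _ (hv.2 γ)

theorem bnd_mono (h1 : Fld1Stmt) {m n : ℤ} (hmn : m ≤ n) {g : grp C K} (hg : bnd m g) :
    bnd n g := by
  obtain ⟨z, add, neg, mul, mono, -⟩ := h1 K
  intro v hv
  have := hg v hv
  exact ⟨fun i => mono m n _ hmn (this.1 i), fun γ => mono m n _ hmn (this.2 γ)⟩

theorem exists_bnd (h1 : Fld1Stmt) (hC : SimplyLaced C) (g : grp C K) :
    ∃ m : ℕ, bnd m g ∧ bnd m g⁻¹ := by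
  have hg : g ∈ Subgroup.closure {g : grp C K | ∃ (β : Rt C) (a : FF K), g = xg hC β a} := by
    rw [grp_closure hC]; exact Subgroup.mem_top g
  induction hg using Subgroup.closure_induction with
  | mem x hx =>
    obtain ⟨β, a, rfl⟩ := hx
    obtain ⟨m, hm⟩ := exists_bd h1 a
    obtain ⟨n, hn⟩ := exists_bd h1 (-a)
    refine ⟨max (2 * m) (2 * n), ?_, ?_⟩
    · refine bnd_mono h1 (m := ((2 * m : ℕ) : ℤ)) (by exact_mod_cast le_max_left _ _) ?_
      intro v hv
      rw [xg_apply]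
      exact bnd_rootMap h1 β a m hm v hv
    · rw [xg_inv]
      refine bnd_mono h1 (m := ((2 * n : ℕ) : ℤ)) (by exact_mod_cast le_max_right _ _) ?_
      intro v hv
      rw [xg_apply]
      exact bnd_rootMap h1 β (-a) n hn v hv
  | one =>
    have h0 : bnd 0 (1 : grp C K) := fun v hv => hv
    exact ⟨0, h0, by rw [inv_one]; exact h0⟩
  | mul x y _ _ hx hy =>
    obtain ⟨m, h2, h3⟩ := hx
    obtain ⟨n, h4, h5⟩ := hy
    refine ⟨m + n, ?_, ?_⟩
    · push_cast; exact bnd_mul h1 h2 h4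
    · rw [mul_inv_rev]
      have := bnd_mul h1 h5 h3
      rw [add_comm] at this
      push_cast; exact this
  | inv x _ hx =>
    obtain ⟨m, h2, h3⟩ := hx
    exact ⟨m, h3, by rw [inv_inv]; exact h2⟩

theorem bdg (h1 : Fld1Stmt) : BdgStmt := by
  intro r C hC K _
  refine ⟨exists_bnd h1 hC, fun m n g h hg hh => bnd_mul h1 hg hh, fun g => ?_⟩
  constructor
  · intro hg
    refine ⟨fun v hv => (hg v).2 hv, ?_⟩
    have hg' : g⁻¹ ∈ maxK C K := inv_mem hg
    exact fun v hv => (hg' v).2 hv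
  · rintro ⟨h2, h3⟩ v
    constructor
    · intro hv
      have := h3 _ hv
      have e : (g⁻¹).1 (g.1 v) = v := by
        have h : (g⁻¹ * g).1 v = v := by simp
        exact h
      rw [e] at this; exact this
    · intro hv; exact h2 v hv

end

end Pool.Agent.DEN.H75
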